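import Pool.Agent.Results.MP_195d7c_lc.ThreeLetters

set_option autoImplicit false

/-!
# Binary block codes
-/

namespace Pool.Agent.Y366.TL

open Pool.Agent.Results.MP_195d7c_lc.ThreeLetters

/-- A block code preserves and reflects the order by initial segments. -/
theorem block_isPrefix {D E : Type} (f : D → List E) (n : ℕ) (hn : 0 < n)
    (hf : Function.Injective f) (hl : ∀ d, (f d).length = n) :
    ∀ x y : List D, ext f x <+: ext f y → x <+: y := by
  intro x
  induction x with
  | nil => intro y _; exact List.nil_prefix
  | cons c x ih =>
    intro y hxy
    cases y with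
    | nil =>
      have h1 := hxy.length_le
      simp only [ext, List.map_cons, List.flatten_cons, List.length_append, hl, List.map_nil,
        List.flatten_nil, List.length_nil] at h1
      omega
    | cons d y =>
      obtain ⟨t, ht⟩ := hxy
      have e1 : ext f (c :: x) = f c ++ ext f x := by simp [ext]
      have e2 : ext f (d :: y) = f d ++ ext f y := by simp [ext]
      rw [e1, e2, List.append_assoc] at ht
      obtain ⟨h1, h2⟩ := List.append_inj ht (by rw [hl, hl])
      obtain rfl := hf h1
      obtain ⟨u, hu⟩ := ih y ⟨t, h2⟩
      exact ⟨u, by rw [List.cons_append, hu]⟩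

theorem block_injective {D E : Type} (f : D → List E) (n : ℕ) (hn : 0 < n)
    (hf : Function.Injective f) (hl : ∀ d, (f d).length = n) : Function.Injective (ext f) := by
  intro x y h
  have h1 := block_isPrefix f n hn hf hl x y (h ▸ List.prefix_rfl)
  have h2 := block_isPrefix f n hn hf hl y x (h ▸ List.prefix_rfl)
  exact h1.eq_of_length (le_antisymm h1.length_le h2.length_le)

/-- The one-hot code of a finite alphabet. -/
noncomputable def hot (D : Type) [Fintype D] [DecidableEq D] (d : D) : List Bool :=
  (Finset.univ : Finset D).toList.map fun e => decide (e = d)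

theorem hot_length (D : Type) [Fintype D] [DecidableEq D] (d : D) :
    (hot D d).length = Fintype.card D := by
  simp [hot]

theorem hot_injective (D : Type) [Fintype D] [DecidableEq D] : Function.Injective (hot D) := by
  intro c d h
  unfold hot at h
  have h1 := List.map_inj_left.1 h c (by simp)
  simpa using h1

theorem exists_binary (D : Type) [Fintype D] [Nonempty D] :
    ∃ c : FreeMonoid D →* FreeMonoid Bool, Function.Injective c ∧
      ∀ x y : FreeMonoid D, (c x).toList <+: (c y).toList → x.toList <+: y.toList := by
  classical
  have hinj := block_injective (hot D) (Fintype.card D) Fintype.card_pos (hot_injective D)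
    (hot_length D)
  refine ⟨mor (hot D), ?_, ?_⟩
  · intro x y h
    have h1 : mor (hot D) (FreeMonoid.ofList x.toList) = mor (hot D) (FreeMonoid.ofList y.toList) :=
      h
    rw [mor_ofList, mor_ofList] at h1
    exact FreeMonoid.toList.injective (hinj (FreeMonoid.ofList.injective h1))
  · intro x y h
    have h1 : (mor (hot D) (FreeMonoid.ofList x.toList)).toList <+:
        (mor (hot D) (FreeMonoid.ofList y.toList)).toList := h
    rw [mor_ofList, mor_ofList] at h1
    exact block_isPrefix (hot D) (Fintype.card D) Fintype.card_pos (hot_injective D)
      (hot_length D) _ _ h1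

end Pool.Agent.Y366.TL
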