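import Pool.Agent.Y366.TL.Sound

set_option autoImplicit false

/-!
# The morphism `hh` is of bounded delay two
-/

namespace Pool.Agent.Y366.TL

open Pool.Agent.Results.MP_195d7c_lc.ThreeLetters

variable {S : Type} [DecidableEq S] {A B C : S}

theorem nb (V : List S) (t : List (Bool ⊕ S)) :
    ¬ (b S :: t <+: ext (hh A B C) V) := by
  rintro ⟨u, hu⟩
  rw [List.cons_append] at hu
  exact ext_hh_ne V _ hu.symm

theorem nb' {U : List S} (hU : U ≠ []) (t : List (Bool ⊕ S)) :
    ¬ (ext (hh A B C) U <+: b S :: t) := by
  cases U with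
  | nil => exact absurd rfl hU
  | cons X U =>
    rw [ext_cons]
    rcases hh_head (A := A) (B := B) (C := C) X with ⟨u, hu⟩ | ⟨u, hu⟩ <;> rw [hu] <;> simp

theorem letters (A B C X : S) : X = A ∨ X = B ∨ X = C ∨ (X ≠ A ∧ X ≠ B ∧ X ≠ C) := by
  by_cases h1 : X = A <;> by_cases h2 : X = B <;> by_cases h3 : X = C <;> simp [h1, h2, h3]

theorem L1 (hAB : A ≠ B) (hAC : A ≠ C) (hBC : B ≠ C) {U V : List S} (hU : U ≠ []) :
    ¬ ([a S, b S, a S] ++ ext (hh A B C) U <+: ext (hh A B C) V) := by
  intro h
  cases V with
  | nil => simp [ext] at h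
  | cons Y V =>
    rw [ext_cons] at h
    rcases letters A B C Y with hY | hY | hY | ⟨y1, y2, y3⟩
    · rw [hY, hh_A] at h
      simp only [List.cons_append, List.nil_append, List.cons_prefix_cons, true_and] at h
      exact nb' hU _ h
    · rw [hY, hh_B hAB] at h
      simp only [List.cons_append, List.nil_append, List.cons_prefix_cons, true_and] at h
      exact nb' hU _ h
    · rw [hY, hh_C hAC hBC] at h
      simp only [List.cons_append, List.nil_append, List.cons_prefix_cons, true_and] at h
      exact nb V _ h
    · rw [hh_o y1 y2 y3] at h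
      simp at h

theorem L3 (hAB : A ≠ B) (hAC : A ≠ C) (hBC : B ≠ C) {U V : List S} (hU : 2 ≤ U.length) :
    ¬ (ext (hh A B C) U <+: [a S, b S, a S] ++ ext (hh A B C) V) := by
  intro h
  cases U with
  | nil => simp at hU
  | cons X U =>
    have hU0 : U ≠ [] := by rintro rfl; simp at hU
    rw [ext_cons] at h
    rcases letters A B C X with hX | hX | hX | ⟨x1, x2, x3⟩
    · rw [hX, hh_A] at h
      simp only [List.cons_append, List.nil_append, List.cons_prefix_cons, true_and] at h
      exact nb V _ h
    · rw [hX, hh_B hAB] at h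
      simp only [List.cons_append, List.nil_append, List.cons_prefix_cons, true_and] at h
      exact nb V _ h
    · rw [hX, hh_C hAC hBC] at h
      simp only [List.cons_append, List.nil_append, List.cons_prefix_cons, true_and] at h
      exact nb' hU0 _ h
    · rw [hh_o x1 x2 x3] at h
      simp at h

/-- The morphism `hh` is of bounded delay two. -/
theorem delay (hAB : A ≠ B) (hAC : A ≠ C) (hBC : B ≠ C) (X Y : S) (U V : List S)
    (hU : 2 ≤ U.length) (h : ext (hh A B C) (X :: U) <+: ext (hh A B C) (Y :: V)) : X = Y := by
  have hU0 : U ≠ [] := by rintro rfl; simp at hU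
  by_contra hne
  rw [ext_cons, ext_cons] at h
  rcases letters A B C X with hX | hX | hX | ⟨x1, x2, x3⟩
  · rw [hX, hh_A] at h
    rcases letters A B C Y with hY | hY | hY | ⟨y1, y2, y3⟩
    · exact hne (hX.trans hY.symm)
    · rw [hY, hh_B hAB] at h
      simp only [List.cons_append, List.nil_append, List.cons_prefix_cons, true_and] at h
      exact L1 hAB hAC hBC hU0 (by simpa using h)
    · rw [hY, hh_C hAC hBC] at h
      simp only [List.cons_append, List.nil_append, List.cons_prefix_cons, true_and] at h
      exact nb V _ h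
    · rw [hh_o y1 y2 y3] at h
      simp at h
  · rw [hX, hh_B hAB] at h
    rcases letters A B C Y with hY | hY | hY | ⟨y1, y2, y3⟩
    · rw [hY, hh_A] at h
      simp only [List.cons_append, List.nil_append, List.cons_prefix_cons, true_and] at h
      exact L3 hAB hAC hBC hU (by simpa using h)
    · exact hne (hX.trans hY.symm)
    · rw [hY, hh_C hAC hBC] at h
      simp only [List.cons_append, List.nil_append, List.cons_prefix_cons, true_and] at h
      exact nb V _ h
    · rw [hh_o y1 y2 y3] at h
      simp at h
  · rw [hX, hh_C hAC hBC] at h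
    rcases letters A B C Y with hY | hY | hY | ⟨y1, y2, y3⟩
    · rw [hY, hh_A] at h
      simp only [List.cons_append, List.nil_append, List.cons_prefix_cons, true_and] at h
      exact nb' hU0 _ h
    · rw [hY, hh_B hAB] at h
      simp only [List.cons_append, List.nil_append, List.cons_prefix_cons, true_and] at h
      exact nb' hU0 _ h
    · exact hne (hX.trans hY.symm)
    · rw [hh_o y1 y2 y3] at h
      simp at h
  · rw [hh_o x1 x2 x3] at h
    rcases letters A B C Y with hY | hY | hY | ⟨y1, y2, y3⟩
    · rw [hY, hh_A] at h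
      simp at h
    · rw [hY, hh_B hAB] at h
      simp at h
    · rw [hY, hh_C hAC hBC] at h
      simp at h
    · rw [hh_o y1 y2 y3] at h
      simp only [List.cons_append, List.nil_append, List.cons_prefix_cons, Sum.inr.injEq] at h
      exact hne h.1

end Pool.Agent.Y366.TL
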