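import Pool.Agent.Y366.TL.Sound

set_option autoImplicit false

/-!
# The equality set is not context-free
-/

namespace Pool.Agent.Y366.TL

open Pool.Agent.Results.MP_195d7c_lc.ThreeLetters Pool.Agent.TH138.LG

variable {S : Type} [DecidableEq S] {A B C : S}

omit [DecidableEq S] in
theorem Run.append {s r s1 r1 s2 r2 : ℕ} {U V : List S} (h : Run A B C s r U s1 r1)
    (h' : Run A B C s1 r1 V s2 r2) : Run A B C s r (U ++ V) s2 r2 := by
  induction h with
  | nil => exact h'
  | b _ ih => exact .b (ih h')
  | a _ ih => exact .a (ih h')
  | c _ ih => exact .c (ih h')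
  | o x1 x2 x3 _ ih => exact .o x1 x2 x3 (ih h')

/-- The word `∏ i = 1, ..., n, A B ^ i`. -/
def up (A B : S) : ℕ → List S
  | 0 => []
  | n + 1 => up A B n ++ (A :: List.replicate (n + 1) B)

/-- The word `∏ i = n, ..., 1, C B ^ (i - 1)`. -/
def down (B C : S) : ℕ → List S
  | 0 => []
  | n + 1 => C :: (List.replicate n B ++ down B C n)

omit [DecidableEq S] in
theorem run_rep (s r : ℕ) : Run A B C s r (List.replicate r B) s 0 := by
  induction r with
  | zero => exact .nil s 0
  | succ r ih => rw [List.replicate_succ]; exact .b ih

omit [DecidableEq S] in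
theorem run_up (n : ℕ) : Run A B C 0 0 (up A B n) n 0 := by
  induction n with
  | zero => exact .nil 0 0
  | succ n ih => exact ih.append (.a (run_rep _ _))

omit [DecidableEq S] in
theorem run_down (n : ℕ) : Run A B C n 0 (down B C n) 0 0 := by
  induction n with
  | zero => exact .nil 0 0
  | succ n ih => exact .c ((run_rep _ _).append ih)

omit [DecidableEq S] in
theorem mem_up {n : ℕ} {X : S} (h : X ∈ up A B n) : X = A ∨ X = B := by
  induction n with
  | zero => simp [up] at h
  | succ n ih =>
    rw [up, List.mem_append, List.mem_cons] at h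
    rcases h with h | h | h
    · exact ih h
    · exact Or.inl h
    · exact Or.inr (List.eq_of_mem_replicate h)

omit [DecidableEq S] in
theorem mem_down {n : ℕ} {X : S} (h : X ∈ down B C n) : X = C ∨ X = B := by
  induction n with
  | zero => simp [down] at h
  | succ n ih =>
    rw [down, List.mem_cons, List.mem_append] at h
    rcases h with h | h | h
    · exact Or.inl h
    · exact Or.inr (List.eq_of_mem_replicate h)
    · exact ih h

omit [DecidableEq S] in
theorem length_up (n : ℕ) : n ≤ (up A B n).length := by
  induction n with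
  | zero => simp
  | succ n ih => rw [up, List.length_append, List.length_cons]; omega

omit [DecidableEq S] in
/-- All letters `A` precede all letters `C`. -/
theorem cut (hAB : A ≠ B) (hAC : A ≠ C) (hBC : B ≠ C) {n : ℕ} {p q : List S}
    (h : up A B n ++ down B C n = p ++ q) (hp : C ∈ p) : A ∉ q := by
  rcases List.append_eq_append_iff.1 h with ⟨e, h1, h2⟩ | ⟨e, h1, h2⟩
  · intro hA
    rcases mem_down (h2 ▸ List.mem_append_right e hA : A ∈ down B C n) with h | h
    · exact hAC h
    · exact hAB h
  · rcases mem_up (h1 ▸ List.mem_append_left e hp : C ∈ up A B n) with h | h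
    · exact absurd h.symm hAC
    · exact absurd h.symm hBC

/-- **The equality set is not context-free.** -/
theorem not_contextFree (hAB : A ≠ B) (hAC : A ≠ C) (hBC : B ≠ C) :
    ¬ (equalitySet (mor (hh A B C)) (mor (gg A B C))).IsContextFree := by
  rintro ⟨g, hg⟩
  have hmem : ∀ w : List S, w ∈ g.language ↔ Run A B C 0 0 w 0 0 := by
    intro w
    rw [← mem_iff hAB hAC hBC, hg]
    change mor (hh A B C) (FreeMonoid.ofList w) = mor (gg A B C) (FreeMonoid.ofList w) ↔ _
    rw [mor_ofList, mor_ofList]
    exact FreeMonoid.ofList.injective.eq_iff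
  set n := width g ^ ((inputs g).card * Fintype.card (Bool × Bool)) + 1 with hn
  have hw : up A B n ++ down B C n ∈ g.language := (hmem _).2 ((run_up n).append (run_down n))
  have hlen : width g ^ ((inputs g).card * Fintype.card (Bool × Bool)) <
      (up A B n ++ down B C n).length := by
    rw [List.length_append]
    have := length_up (A := A) (B := B) n
    omega
  obtain ⟨u, v, x, y, z, h1, h2, h3, h4⟩ :=
    pumpingC (fun p q => (decide (C ∈ p), decide (A ∈ q))) hw hlen
  have hC : C ∈ u ++ v → C ∈ u := by
    intro h
    have := congrArg Prod.fst h3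
    simp only [decide_eq_decide] at this
    exact this.2 h
  have hA : A ∈ y ++ z → A ∈ z := by
    intro h
    have := congrArg Prod.snd h3
    simp only [decide_eq_decide] at this
    exact this.2 h
  have hlet : ∀ X ∈ u ++ v ++ x ++ y ++ z, X = A ∨ X = B ∨ X = C := by
    intro X hX
    rw [← h1, List.mem_append] at hX
    rcases hX with hX | hX
    · rcases mem_up hX with h | h
      · exact Or.inl h
      · exact Or.inr (Or.inl h)
    · rcases mem_down hX with h | h
      · exact Or.inr (Or.inr h)
      · exact Or.inr (Or.inl h)
  have hrun : ∀ k : ℕ, Run A B C 0 0 (u ++ pw v k ++ x ++ pw y k ++ z) 0 0 :=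
    fun k => (hmem _).1 (h4 k)
  by_cases hv : v = []
  · subst hv
    have hy : y ≠ [] := by
      rcases h2 with h | h
      · exact absurd rfl h
      · exact h
    refine no_pump (u := u ++ x) hAB hAC hBC hy ?_ ?_ ?_
    · by_contra hcon
      push Not at hcon
      have h5 : A ∈ z := hA (List.mem_append_left _ hcon.1)
      refine cut hAB hAC hBC (p := u ++ [] ++ x ++ y) (q := z) (by rw [h1]) ?_ h5
      exact List.mem_append_right _ hcon.2
    · intro X hX
      exact hlet X (by simp [hX])
    · intro k
      have h5 := hrun k
      rw [pw_nil, List.append_nil] at h5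
      obtain ⟨s, r, h6, -⟩ := h5.split
      exact ⟨s, r, h6⟩
  · refine no_pump (u := u) hAB hAC hBC hv ?_ ?_ ?_
    · by_contra hcon
      push Not at hcon
      have h5 : C ∈ u := hC (List.mem_append_right _ hcon.2)
      refine cut hAB hAC hBC (p := u) (q := v ++ x ++ y ++ z) (by rw [h1]; simp) h5 ?_
      simp [hcon.1]
    · intro X hX
      exact hlet X (by simp [hX])
    · intro k
      have h5 := hrun k
      rw [List.append_assoc, List.append_assoc] at h5
      obtain ⟨s, r, h6, -⟩ := h5.split
      exact ⟨s, r, h6⟩

end Pool.Agent.Y366.TL
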