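import Pool.Agent.TH138.LG.Pump2
import Pool.Agent.Results.MP_195d7c_lc.ThreeLetters

set_option autoImplicit false

/-!
# The equality set of two injective morphisms on three letters: runs of a counter

The words of the equality set of the morphisms `hh A B C` and `gg A B C` are read by a machine
whose state is a pair `(s, r)`: the level `s` and the number `r` of letters `B` which have to be
read before the next step up (`A`) or down (`C`).
-/

namespace Pool.Agent.Y366.TL

open Pool.Agent.Results.MP_195d7c_lc.ThreeLetters

variable {S : Type}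

/-- The word leads from the state `(s, r)` to the state `(s', r')`. -/
inductive Run (A B C : S) : ℕ → ℕ → List S → ℕ → ℕ → Prop
  | nil (s r : ℕ) : Run A B C s r [] s r
  | b {s r s' r' : ℕ} {W : List S} : Run A B C s r W s' r' → Run A B C s (r + 1) (B :: W) s' r'
  | a {s s' r' : ℕ} {W : List S} : Run A B C (s + 1) (s + 1) W s' r' →
      Run A B C s 0 (A :: W) s' r'
  | c {s s' r' : ℕ} {W : List S} : Run A B C s s W s' r' → Run A B C (s + 1) 0 (C :: W) s' r'
  | o {s' r' : ℕ} {X : S} {W : List S} : X ≠ A → X ≠ B → X ≠ C → Run A B C 0 0 W s' r' →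
      Run A B C 0 0 (X :: W) s' r'

variable {A B C : S}

theorem Run.split {s r s' r' : ℕ} {U V : List S} (h : Run A B C s r (U ++ V) s' r') :
    ∃ s1 r1, Run A B C s r U s1 r1 ∧ Run A B C s1 r1 V s' r' := by
  induction U generalizing s r with
  | nil => exact ⟨s, r, .nil s r, h⟩
  | cons X U ih =>
    rw [List.cons_append] at h
    generalize hl : X :: (U ++ V) = l at h
    cases h with
    | nil => cases hl
    | b h1 =>
      cases hl
      obtain ⟨s1, r1, h2, h3⟩ := ih h1
      exact ⟨s1, r1, .b h2, h3⟩
    | a h1 =>
      cases hl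
      obtain ⟨s1, r1, h2, h3⟩ := ih h1
      exact ⟨s1, r1, .a h2, h3⟩
    | c h1 =>
      cases hl
      obtain ⟨s1, r1, h2, h3⟩ := ih h1
      exact ⟨s1, r1, .c h2, h3⟩
    | o x1 x2 x3 h1 =>
      cases hl
      obtain ⟨s1, r1, h2, h3⟩ := ih h1
      exact ⟨s1, r1, .o x1 x2 x3 h2, h3⟩

/-- The level after a word. -/
theorem Run.level [DecidableEq S] (hAB : A ≠ B) (hAC : A ≠ C) (hBC : B ≠ C) {s r s' r' : ℕ}
    {U : List S} (h : Run A B C s r U s' r') : s' + U.count C = s + U.count A := by
  induction h with
  | nil => simp
  | b _ ih => simpa [List.count_cons, hAB.symm, hBC] using ih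
  | a _ ih =>
    simp only [List.count_cons, beq_iff_eq, hAC, if_false, if_true, Nat.add_zero] at ih ⊢
    omega
  | c _ ih =>
    simp only [List.count_cons, beq_iff_eq, hAC.symm, if_false, if_true, Nat.add_zero] at ih ⊢
    omega
  | o x1 x2 x3 _ ih => simpa [List.count_cons, x1, x3] using ih

theorem Run.le_level {s r s' r' : ℕ} {U : List S} (h : Run A B C s r U s' r') (hr : r ≤ s) :
    r' ≤ s' := by
  induction h with
  | nil => exact hr
  | b _ ih => exact ih (by omega)
  | a _ ih => exact ih le_rfl
  | c _ ih => exact ih le_rfl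
  | o _ _ _ _ ih => exact ih le_rfl

theorem Run.le_length {s r s' r' : ℕ} {U : List S} (h : Run A B C s r U s' r')
    (hU : ∃ X ∈ U, X ≠ B) : r ≤ U.length := by
  induction h with
  | nil => simp at hU
  | b _ ih =>
    obtain ⟨X, hX, hXB⟩ := hU
    rcases List.mem_cons.1 hX with hX | hX
    · exact absurd hX hXB
    · have := ih ⟨X, hX, hXB⟩
      simp only [List.length_cons]
      omega
  | a => simp
  | c => simp
  | o => simp

theorem Run.length_le (hAB : A ≠ B) (hBC : B ≠ C) {s r s' r' : ℕ} {U : List S}
    (h : Run A B C s r U s' r') (hU : ∀ X ∈ U, X = B) : U.length ≤ r := by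
  induction h with
  | nil => simp
  | b _ ih =>
    have := ih (fun X hX => hU X (List.mem_cons_of_mem _ hX))
    simp only [List.length_cons]
    omega
  | a => exact absurd (hU _ (List.mem_cons_self)) hAB
  | c => exact absurd (hU _ (List.mem_cons_self)).symm hBC
  | o _ x2 => exact absurd (hU _ (List.mem_cons_self)) x2

/-- `v` repeated `k` times. -/
def pw (v : List S) (k : ℕ) : List S := (List.replicate k v).flatten

theorem pw_succ (v : List S) (k : ℕ) : pw v (k + 1) = pw v k ++ v := by
  unfold pw
  rw [List.replicate_succ', List.flatten_append]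
  simp

theorem pw_zero (v : List S) : pw v 0 = [] := rfl

theorem pw_nil (k : ℕ) : pw ([] : List S) k = [] := by
  induction k with
  | zero => rfl
  | succ k ih => rw [pw_succ, ih]; rfl

theorem count_pw [DecidableEq S] (X : S) (v : List S) (k : ℕ) :
    (pw v k).count X = k * v.count X := by
  induction k with
  | zero => simp [pw_zero]
  | succ k ih => rw [pw_succ, List.count_append, ih]; ring

theorem mem_pw {X : S} {v : List S} {k : ℕ} (h : X ∈ pw v k) : X ∈ v := by
  induction k with
  | zero => simp [pw_zero] at h
  | succ k ih =>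
    rw [pw_succ, List.mem_append] at h
    rcases h with h | h
    · exact ih h
    · exact h

theorem length_pw (v : List S) (k : ℕ) : (pw v k).length = k * v.length := by
  induction k with
  | zero => simp [pw_zero]
  | succ k ih => rw [pw_succ, List.length_append, ih]; ring

theorem Run.append_a {s r s' r' : ℕ} {V : List S} (hAB : A ≠ B) (hAC : A ≠ C)
    (h : Run A B C s r (A :: V) s' r') : r = 0 ∧ Run A B C (s + 1) (s + 1) V s' r' := by
  generalize hl : A :: V = l at h
  cases h with
  | nil => cases hl
  | b h1 => exact absurd (List.cons.inj hl).1 hAB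
  | a h1 => cases hl; exact ⟨rfl, h1⟩
  | c h1 => exact absurd (List.cons.inj hl).1 hAC
  | o x1 => exact absurd (List.cons.inj hl).1.symm x1

/-- **No pumping**: a nonempty word of letters `A, B, C` which does not contain both `A` and `C`
cannot be repeated arbitrarily often. -/
theorem no_pump [DecidableEq S] (hAB : A ≠ B) (hAC : A ≠ C) (hBC : B ≠ C) {u v : List S}
    (hv : v ≠ []) (hv1 : A ∉ v ∨ C ∉ v) (hv2 : ∀ X ∈ v, X = A ∨ X = B ∨ X = C)
    (h : ∀ k : ℕ, ∃ s r, Run A B C 0 0 (u ++ pw v k) s r) : False := by
  have hvl : 0 < v.length := List.length_pos_iff.2 hv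
  by_cases hC : C ∈ v
  · -- the level decreases
    have hA : A ∉ v := by tauto
    have hcA : v.count A = 0 := List.count_eq_zero.2 hA
    have hcC : 0 < v.count C := List.count_pos_iff.2 hC
    obtain ⟨s0, r0, h0⟩ := h (u.count A + 1)
    have h1 := h0.level hAB hAC hBC
    rw [List.count_append, List.count_append, count_pw, count_pw, hcA] at h1
    have h2 : (u.count A + 1) * 1 ≤ (u.count A + 1) * v.count C := Nat.mul_le_mul_left _ hcC
    omega
  · by_cases hA : A ∈ v
    · have hcC : v.count C = 0 := List.count_eq_zero.2 hC
      have hcA : 0 < v.count A := List.count_pos_iff.2 hA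
      obtain ⟨β, γ, hβ⟩ := List.append_of_mem hA
      obtain ⟨s0, r0, h0⟩ := h (u.count C + 2 * v.length + 2)
      rw [show u.count C + 2 * v.length + 2 = (u.count C + 2 * v.length) + 1 + 1 from rfl,
        pw_succ, pw_succ, List.append_assoc, ← List.append_assoc] at h0
      obtain ⟨s1, r1, h1, h2⟩ := h0.split
      have h3 := h1.level hAB hAC hBC
      rw [List.count_append, List.count_append, count_pw, count_pw, hcC] at h3
      have h4 : (u.count C + 2 * v.length) * 1 ≤ (u.count C + 2 * v.length) * v.count A :=
        Nat.mul_le_mul_left _ hcA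
      have h5 : 2 * v.length ≤ s1 := by omega
      have h6 : v ++ v = β ++ (A :: (γ ++ v)) := by
        conv_lhs => rw [hβ]
        rw [hβ]
        simp
      rw [h6] at h2
      obtain ⟨s2, r2, h7, h8⟩ := h2.split
      obtain ⟨rfl, h9⟩ := h8.append_a hAB hAC
      have h10 := h7.level hAB hAC hBC
      have h11 : β.count C = 0 := by
        apply List.count_eq_zero.2
        intro hc
        exact hC (by rw [hβ]; exact List.mem_append_left _ hc)
      have h12 := h9.le_length ⟨A, List.mem_append_right _ hA, hAB⟩
      rw [List.length_append] at h12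
      have h13 : v.length = β.length + (γ.length + 1) := by
        conv_lhs => rw [hβ]
        simp
      omega
    · -- only letters `B`
      have hB : ∀ X ∈ v, X = B := by
        intro X hX
        rcases hv2 X hX with rfl | rfl | rfl
        · exact absurd hX hA
        · rfl
        · exact absurd hX hC
      obtain ⟨s0, r0, h0⟩ := h (u.count A + 1)
      obtain ⟨s1, r1, h1, h2⟩ := h0.split
      have h3 := h1.level hAB hAC hBC
      have h4 := h1.le_level le_rfl
      have h5 := h2.length_le hAB hBC (fun X hX => hB X (mem_pw hX))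
      rw [length_pw] at h5
      have h6 : (u.count A + 1) * 1 ≤ (u.count A + 1) * v.length := Nat.mul_le_mul_left _ hvl
      omega

end Pool.Agent.Y366.TL
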