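import Pool.Agent.Y366.TL.Run

set_option autoImplicit false

/-!
# Words of the equality set are accepted runs
-/

namespace Pool.Agent.Y366.TL

open Pool.Agent.Results.MP_195d7c_lc.ThreeLetters

theorem P_add {D : Type} (a b : D) (m n : ℕ) : P a b (m + n) = P a b m ++ P a b n := by
  induction m with
  | zero => simp [P]
  | succ m ih => rw [Nat.add_right_comm]; simp [P, ih]

/-- The overflow in the state `(s, r)`. -/
def Ov {D : Type} (a b : D) (s r : ℕ) : List D := P b a (2 * r) ++ P a b (2 * (s - r))

theorem Ov_succ {D : Type} (a b : D) (s r : ℕ) (h : r + 1 ≤ s) :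
    ∃ t, Ov a b s (r + 1) = [b, a, b, a] ++ t ∧ Ov a b s r = t ++ [a, b, a, b] := by
  refine ⟨P b a (2 * r) ++ P a b (2 * (s - (r + 1))), ?_, ?_⟩
  · unfold Ov
    rw [show 2 * (r + 1) = 2 + 2 * r by ring, P_add]
    simp [P]
  · unfold Ov
    rw [show 2 * (s - r) = 2 * (s - (r + 1)) + 2 by omega, P_add a b _ 2]
    simp [P]

theorem Ov_up {D : Type} (a b : D) (s : ℕ) (l : List D) :
    Ov a b s 0 ++ ([a, b, a, b, a, b, a] ++ l) = [a, b, a] ++ (Ov a b (s + 1) (s + 1) ++ l) := by
  unfold Ov
  rw [Nat.sub_zero, Nat.sub_self, show 2 * (s + 1) = 2 * s + 2 by ring, P_add b a _ 2]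
  simp [P, P_swap]

theorem Ov_zero {D : Type} (a b : D) : Ov a b 0 0 = [] := rfl

theorem Ov_down {D : Type} (a b : D) (s : ℕ) (l : List D) :
    Ov a b (s + 1) 0 ++ ([a] ++ l) = [a, b, a, b, a] ++ (Ov a b s s ++ l) := by
  unfold Ov
  rw [Nat.sub_zero, Nat.sub_self, show 2 * (s + 1) = 2 + 2 * s by ring, P_add a b 2]
  simp [P, P_swap]

theorem Ov_cons {D : Type} (a b : D) (s : ℕ) : ∃ t, Ov a b (s + 1) 0 = a :: t :=
  ⟨_, by unfold Ov; rw [Nat.sub_zero, show 2 * (s + 1) = 2 * s + 1 + 1 by ring]; rfl⟩

variable {S : Type} [DecidableEq S] {A B C : S}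

omit [DecidableEq S] in
theorem ext_cons {D : Type} (f : S → List D) (X : S) (z : List S) :
    ext f (X :: z) = f X ++ ext f z := by simp [ext]

theorem hh_A : hh A B C A = [a S, b S, a S, b S, a S, b S, a S] := by simp [hh]
theorem hh_B (hAB : A ≠ B) : hh A B C B = [a S, b S, a S, b S] := by simp [hh, hAB.symm]
theorem hh_C (hAC : A ≠ C) (hBC : B ≠ C) : hh A B C C = [a S] := by
  simp [hh, hAC.symm, hBC.symm]
theorem hh_o {X : S} (h1 : X ≠ A) (h2 : X ≠ B) (h3 : X ≠ C) : hh A B C X = [Sum.inr X] := by
  simp [hh, h1, h2, h3]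
theorem gg_A : gg A B C A = [a S, b S, a S] := by simp [gg]
theorem gg_B (hAB : A ≠ B) : gg A B C B = [b S, a S, b S, a S] := by simp [gg, hAB.symm]
theorem gg_C (hAC : A ≠ C) (hBC : B ≠ C) : gg A B C C = [a S, b S, a S, b S, a S] := by
  simp [gg, hAC.symm, hBC.symm]
theorem gg_o {X : S} (h1 : X ≠ A) (h2 : X ≠ B) (h3 : X ≠ C) : gg A B C X = [Sum.inr X] := by
  simp [gg, h1, h2, h3]

/-- No image under `hh` starts with the letter `b`. -/
theorem hh_head (X : S) : (∃ t, hh A B C X = a S :: t) ∨ ∃ t, hh A B C X = Sum.inr X :: t := by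
  unfold hh
  split_ifs <;> simp

theorem ext_hh_ne (z : List S) (t : List (Bool ⊕ S)) : ext (hh A B C) z ≠ b S :: t := by
  cases z with
  | nil => simp [ext]
  | cons X z =>
    rw [ext_cons]
    rcases hh_head (A := A) (B := B) (C := C) X with ⟨u, hu⟩ | ⟨u, hu⟩ <;> rw [hu] <;> simp

/-- **Soundness.** -/
theorem sound (hAB : A ≠ B) (hAC : A ≠ C) (hBC : B ≠ C) (z : List S) :
    ∀ s r, r ≤ s → Ov (a S) (b S) s r ++ ext (hh A B C) z = ext (gg A B C) z →
      Run A B C s r z 0 0 := by
  induction z with
  | nil =>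
    intro s r hr h
    have h1 := congrArg List.length h
    simp only [Ov, List.length_append, P_length, ext, List.map_nil, List.flatten_nil,
      List.length_nil, Nat.add_zero] at h1
    have h2 : s = 0 := by omega
    have h3 : r = 0 := by omega
    subst h2 h3
    exact .nil 0 0
  | cons X z ih =>
    intro s r hr h
    rw [ext_cons, ext_cons] at h
    rcases r with _ | r
    · -- a step up or down
      by_cases hXA : X = A
      · subst hXA
        rw [hh_A, gg_A, Ov_up] at h
        exact .a (ih _ _ le_rfl (List.append_cancel_left h))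
      · by_cases hXB : X = B
        · subst hXB
          rw [hh_B hAB, gg_B hAB] at h
          rcases s with _ | s
          · simp [Ov, P] at h
          · obtain ⟨t, ht⟩ := Ov_cons (a S) (b S) s
            rw [ht] at h
            simp at h
        · by_cases hXC : X = C
          · subst hXC
            rw [hh_C hAC hBC, gg_C hAC hBC] at h
            rcases s with _ | s
            · rw [Ov_zero] at h
              simp only [List.nil_append, List.cons_append, List.cons.injEq, true_and] at h
              exact absurd h (ext_hh_ne z _)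
            · rw [Ov_down] at h
              exact .c (ih _ _ le_rfl (List.append_cancel_left h))
          · rw [hh_o hXA hXB hXC, gg_o hXA hXB hXC] at h
            rcases s with _ | s
            · refine .o hXA hXB hXC (ih _ _ le_rfl ?_)
              simpa [Ov, P] using h
            · obtain ⟨t, ht⟩ := Ov_cons (a S) (b S) s
              rw [ht] at h
              simp at h
    · -- a letter `B`
      obtain ⟨t, h1, h2⟩ := Ov_succ (a S) (b S) s r hr
      rw [h1] at h
      by_cases hXA : X = A
      · subst hXA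
        rw [gg_A] at h
        simp at h
      · by_cases hXB : X = B
        · subst hXB
          rw [hh_B hAB, gg_B hAB, List.append_assoc] at h
          refine .b (ih _ _ (by omega) ?_)
          rw [h2, List.append_assoc]
          exact List.append_cancel_left h
        · by_cases hXC : X = C
          · subst hXC
            rw [gg_C hAC hBC] at h
            simp at h
          · rw [gg_o hXA hXB hXC] at h
            simp at h

/-- The converse of `sound`. -/
theorem complete (hAB : A ≠ B) (hAC : A ≠ C) (hBC : B ≠ C) {z : List S} {s r s' r' : ℕ}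
    (h : Run A B C s r z s' r') (hr : r ≤ s) :
    Ov (a S) (b S) s r ++ ext (hh A B C) z = ext (gg A B C) z ++ Ov (a S) (b S) s' r' := by
  induction h with
  | nil => simp [ext]
  | @b s r s' r' W _ ih =>
    obtain ⟨t, h1, h2⟩ := Ov_succ (a S) (b S) s r hr
    rw [ext_cons, ext_cons, hh_B hAB, gg_B hAB, h1, List.append_assoc, List.append_assoc,
      ← ih (by omega), h2, List.append_assoc]
  | @a s s' r' W _ ih =>
    rw [ext_cons, ext_cons, hh_A, gg_A, Ov_up, List.append_assoc, ← ih le_rfl]
  | @c s s' r' W _ ih =>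
    rw [ext_cons, ext_cons, hh_C hAC hBC, gg_C hAC hBC, Ov_down, List.append_assoc, ← ih le_rfl]
  | @o s' r' X W x1 x2 x3 _ ih =>
    rw [ext_cons, ext_cons, hh_o x1 x2 x3, gg_o x1 x2 x3, List.append_assoc, ← ih le_rfl]
    simp [Ov, P]

/-- The words of the equality set are exactly the accepted words. -/
theorem mem_iff (hAB : A ≠ B) (hAC : A ≠ C) (hBC : B ≠ C) (z : List S) :
    ext (hh A B C) z = ext (gg A B C) z ↔ Run A B C 0 0 z 0 0 := by
  constructor
  · intro h
    exact sound hAB hAC hBC z 0 0 le_rfl (by simpa [Ov, P] using h)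
  · intro h
    simpa [Ov, P] using complete hAB hAC hBC h le_rfl

end Pool.Agent.Y366.TL
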